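import Pool.Agent.W172.MK.Stm

/-!
MP_65c995_pr, project MK.  The process exists (assembly).
-/

set_option autoImplicit false

open MeasureTheory ProbabilityTheory Filter Topology

namespace Pool.Agent.W923.MK

open Pool.Agent.W172.MK

theorem proc : P_REP → P_XM → P_STEP → P_WIN → P_STATG → P_MARKG → P_IND2 → P_PROC := by
  intro hREP hXM hSTEP hWIN hSTATG hMARKG hIND2
  intro S iM iSB iNe μ iP p hK
  obtain ⟨F, hF⟩ := hREP S iM iSB iNe μ iP p hK
  have hXMF := hXM S iM F hF.meas
  obtain ⟨hX, hpast, -, -⟩ := hXMF
  obtain ⟨hind, hB⟩ := hIND2 S iM μ iP p F hK hF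
  refine ⟨Om S, inferInstance, PM μ, XX F, inferInstance, hX, ?_, ?_, hind, hB⟩
  · intro n
    exact hSTATG S (Om S) iM inferInstance (PM μ) inferInstance (XX F) hX
      (fun N f hf hC k k' => hWIN S iM μ iP p F hK hF N f hf hC k k') n
  · intro n A hA
    obtain ⟨C, hC⟩ := hK.bdd
    have hfm : Measurable (Set.indicator A (fun _ : S => (1 : ℝ))) :=
      measurable_const.indicator hA
    have hfb : ∀ z : S, |Set.indicator A (fun _ : S => (1 : ℝ)) z| ≤ 1 := by
      intro z
      by_cases hz : z ∈ A
      · simp [Set.indicator_of_mem hz]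
      · simp [Set.indicator_of_notMem hz]
    have hPm : Measurable (Pf μ p (Set.indicator A (fun _ : S => (1 : ℝ)))) := by
      have h1 : StronglyMeasurable
          (Function.uncurry (fun x z : S => p x z * Set.indicator A (fun _ : S => (1 : ℝ)) z)) := by
        apply Measurable.stronglyMeasurable
        exact hK.meas.mul (hfm.comp measurable_snd)
      exact (StronglyMeasurable.integral_prod_right h1).measurable
    have hPb : ∃ C : ℝ, ∀ z, |Pf μ p (Set.indicator A (fun _ : S => (1 : ℝ))) z| ≤ C := by
      refine ⟨C, fun z => ?_⟩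
      have h2 := norm_integral_le_of_norm_le_const (μ := μ)
        (f := fun w : S => p z w * Set.indicator A (fun _ : S => (1 : ℝ)) w) (C := C)
        (Filter.Eventually.of_forall (fun w => by
          rw [Real.norm_eq_abs, abs_mul, abs_of_nonneg (hK.nonneg z w)]
          calc p z w * |Set.indicator A (fun _ : S => (1 : ℝ)) w| ≤ p z w * 1 :=
                mul_le_mul_of_nonneg_left (hfb w) (hK.nonneg z w)
            _ = p z w := mul_one _
            _ ≤ C := hC z w))
      have h3 : μ.real Set.univ = 1 := by simp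
      rw [h3, mul_one] at h2
      simpa [Pf, Real.norm_eq_abs] using h2
    refine hMARKG S (Om S) iM inferInstance (PM μ) inferInstance (XX F) hX n A hA
      (Pf μ p (Set.indicator A (fun _ : S => (1 : ℝ)))) hPm hPb ?_
    intro G hG
    exact hSTEP S iM μ iP p F hK hF n G hG (Set.indicator A (fun _ : S => (1 : ℝ))) hfm ⟨1, hfb⟩

end Pool.Agent.W923.MK
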